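import Pool.Agent.H44.Pak6

open Filter Topology Pool.Agent.H44.Pak

theorem Pool.Agent.Results.MP_7f396f_pr.NoCutoff.result :
    ∃ (G : ℕ → Type) (_ : ∀ N, Fintype (G N)) (_ : ∀ N, DecidableEq (G N))
      (_ : ∀ N, Group (G N)) (Z : ∀ N, Finset (G N)),
      (∀ N, Group.IsNilpotent (G N) ∧ Group.nilpotencyClass (G N) ≤ 1) ∧
      (∀ N, (1 : G N) ∉ Z N ∧ ∃ t0, ∀ t ≥ t0, ∀ x y, 0 < (multiSrw (Z N) ^ t) x y) ∧
      (∀ N, ∀ ε > 0, ∃ t, tvDist (multiSrw (Z N)) t ≤ ε) ∧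
      Tendsto (fun N => (tmix (multiSrw (Z N)) (1 / 4) : ℝ) * (1 - lam2 (multiSrw (Z N))))
        atTop atTop ∧
      ¬ ∀ ε ∈ Set.Ioo (0 : ℝ) 1, Tendsto (fun N =>
        (tmix (multiSrw (Z N)) ε : ℝ) / tmix (multiSrw (Z N)) (1 - ε)) atTop (𝓝 1) := by
  choose G i1 i2 i3 S θ h using exists_good
  have hr : ∀ n : ℕ, 11 ≤ n + 11 := fun n => by omega
  refine ⟨G, i1, i2, fun n => (mulGrp (G n)).toGroup, S,
    fun n => ⟨@CommGroup.isNilpotent _ (mulGrp (G n)),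
      @CommGroup.nilpotencyClass_le_one _ (mulGrp (G n))⟩,
    fun n => ⟨(h n).zero, ?_⟩, fun n => ?_, ?_, fun hc => ?_⟩
  · rw [(h n).multiSrw_eq]; exact (h n).pow_pos (hr n) le_rfl (by norm_num)
  · rw [(h n).multiSrw_eq]; exact ((h n).tv (hr n) le_rfl (by norm_num)).1
  · refine tendsto_of_ge fun n => ?_
    rw [(h n).multiSrw_eq]; exact (h n).prod (hr n) le_rfl (by norm_num)
  · refine not_tendsto_one (fun n => ?_) (hc (1 / 4) ⟨by norm_num, by norm_num⟩)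
    rw [(h n).multiSrw_eq]; exact ((h n).tv (hr n) le_rfl (by norm_num)).2.2
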